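import Pool.Agent.KDS.StmtsB
import Pool.Agent.Helper7_KDT.PLN

/-!
# Squad KDS, row PNB: node data in shifted coordinates
-/

set_option autoImplicit false

noncomputable section

namespace Pool.Agent.KDS.H94

open Polynomial NumberField H58Q Pool.Agent.SZT Pool.Agent.KDT Pool.Agent.KDS

/-- The integers of a nonarchimedean absolute value. -/
def Ow {Ω : Type} [Field Ω] (w : AbsoluteValue Ω ℝ) (h : IsNonarchimedean w) : Subring Ω where
  carrier := {x | w x ≤ 1}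
  mul_mem' := by
    intro a b ha hb
    rw [Set.mem_setOf_eq, map_mul]
    exact mul_le_one₀ ha (w.nonneg _) hb
  one_mem' := by
    rw [Set.mem_setOf_eq, map_one]
  add_mem' := by
    intro a b ha hb
    exact (h a b).trans (max_le ha hb)
  zero_mem' := by
    rw [Set.mem_setOf_eq, map_zero]
    exact zero_le_one
  neg_mem' := by
    intro a ha
    rw [Set.mem_setOf_eq, AbsoluteValue.map_neg]
    exact ha

theorem mem_Ow {Ω : Type} [Field Ω] (w : AbsoluteValue Ω ℝ) (h : IsNonarchimedean w) (x : Ω) :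
    x ∈ Ow w h ↔ w x ≤ 1 := Iff.rfl

/-- The quintic with the root `t 0`, shifted to `0`. -/
theorem comp_prod {Ω : Type} [Field Ω] (t : Fin 5 → Ω) (g : Polynomial Ω)
    (hg : g = (∏ k, (X - C (t k))).comp (X + C (t 0))) :
    g = X ^ 5 + C ((t 0 - t 1) + (t 0 - t 2) + (t 0 - t 3) + (t 0 - t 4)) * X ^ 4 +
      C ((t 0 - t 1) * (t 0 - t 2) + (t 0 - t 1) * (t 0 - t 3) + (t 0 - t 1) * (t 0 - t 4) +
        (t 0 - t 2) * (t 0 - t 3) + (t 0 - t 2) * (t 0 - t 4) + (t 0 - t 3) * (t 0 - t 4)) * X ^ 3 +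
      C ((t 0 - t 1) * (t 0 - t 2) * (t 0 - t 3) + (t 0 - t 1) * (t 0 - t 2) * (t 0 - t 4) +
        (t 0 - t 1) * (t 0 - t 3) * (t 0 - t 4) + (t 0 - t 2) * (t 0 - t 3) * (t 0 - t 4)) * X ^ 2 +
      C ((t 0 - t 1) * (t 0 - t 2) * (t 0 - t 3) * (t 0 - t 4)) * X := by
  rw [hg, prod_comp, Fin.prod_univ_five]
  simp only [sub_comp, X_comp, C_comp, map_add, map_mul, map_sub]
  ring

theorem coeffs_quintic {Ω : Type} [Field Ω] (a₁ a₂ a₃ a₄ : Ω) (g : Polynomial Ω)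
    (hg : g = X ^ 5 + C a₄ * X ^ 4 + C a₃ * X ^ 3 + C a₂ * X ^ 2 + C a₁ * X) :
    g.coeff 0 = 0 ∧ g.coeff 1 = a₁ ∧ g.coeff 2 = a₂ ∧ g.coeff 3 = a₃ ∧ g.coeff 4 = a₄ := by
  rw [hg]
  refine ⟨?_, ?_, ?_, ?_, ?_⟩ <;> simp [coeff_X_pow, coeff_X]

/-- **Row PNB.** Node data in shifted coordinates. -/
theorem pnb (hLfb : LfbStatement) (_hMbn : MbnStatement) (hGmp : GmpStatement)
    (nod : SZT.B.NodStmt) (cpl : SZT.B.CplStmt) (roo : SZT.B.RooStmt) (sqr : SZT.B.SqrStmt)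
    (kap : SZT.B.KapStmt) (rat : SZT.B.RatStmt) (nsz : SZT.B.NszStmt) : PnbStatement := by
  intro K _ _ vv f n hf h5 hsq hNS hn hdis0 I hI
  -- the absolute value
  obtain ⟨v, hv⟩ : ∃ v : AbsoluteValue K ℝ, v = vv.val := ⟨_, rfl⟩
  obtain ⟨c, hcdef⟩ : ∃ c : ℝ, c = (Ideal.absNorm vv.maximalIdeal.asIdeal : ℝ)⁻¹ := ⟨_, rfl⟩
  have hq : (1 : ℝ) < (Ideal.absNorm vv.maximalIdeal.asIdeal : ℝ) := by
    exact_mod_cast HeightOneSpectrum.one_lt_absNorm vv.maximalIdeal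
  have hc : 0 < c := by rw [hcdef]; positivity
  have hc1 : c < 1 := by rw [hcdef]; exact inv_lt_one_of_one_lt₀ hq
  have hvv : ∀ x : K, vv x = v x := by
    intro x
    rw [hv]
    rfl
  have hna : IsNonarchimedean v := by
    rw [hv]
    exact fun x y => FinitePlace.add_le vv x y
  have hV : ∀ x : K, x ≠ 0 → ∃ k : ℤ, v x = c ^ k := by
    intro x hx
    rw [← hvv, hcdef]
    exact Pool.Agent.SZT.H82.value_group vv x hx
  have hdis : v (discr f) = c ^ n := by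
    rw [← hvv, hcdef, inv_pow]
    exact eq_inv_of_mul_eq_one_left hdis0
  have hNS' : NodeShape v f := by rw [hv]; exact hNS
  have hdn : discr f ≠ 0 := by
    intro h
    rw [h, map_zero] at hdis
    exact (pow_pos hc n).ne hdis
  have hnt : ∃ x : K, x ≠ 0 ∧ v x ≠ 1 := by
    refine ⟨discr f, hdn, ?_⟩
    rw [hdis]
    exact (pow_lt_one₀ hc.le hc1 hn.ne').ne
  obtain ⟨Ω, L, _, _, _, _, _, i, j, hij⟩ := cpl K v hna hnt
  obtain ⟨θ, e₀, hN, he₀⟩ := roo K Ω L i j v f hij hf h5 hdn hNS'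
  obtain ⟨φ, hφ⟩ : ∃ φ : K →+* L, φ = j.comp i := ⟨_, rfl⟩
  rw [← hφ] at hN
  obtain ⟨θL, hθL⟩ : ∃ θL : Fin 5 → L, θL = fun k => j (θ k) := ⟨_, rfl⟩
  rw [← hθL] at hN he₀
  have hφx : ∀ x : K, φ x = j (i x) := fun x => by rw [hφ]; rfl
  have hφv : ∀ x : K, ‖φ x‖ = v x := by
    intro x
    rw [hφx, hij]
  have hmm : ∀ p : K[X], (p.map i).map j = p.map φ := by
    intro p
    rw [Polynomial.map_map, hφ]
  obtain ⟨⟨hη0, hη1, -⟩, ⟨hPI, hh0, -⟩, -, ⟨hPIf, -, -⟩, -, hres⟩ := nod L (f.map φ) θL hN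
  have hηd : ‖SZT.B.eta θL‖ = v (discr f) := by
    rw [← hres, Pool.Agent.SZT.H39.discr_map φ hf h5, hφv]
  have hηc : ‖SZT.B.eta θL‖ = c ^ n := by rw [hηd, hdis]
  -- the square root
  obtain ⟨s, hs⟩ : ∃ s : ℕ → L, SZT.B.Sq (SZT.B.hh θL) s := by
    obtain ⟨e, he0⟩ : ∃ e : Ω, e = (θ 0 + θ 1) / 2 := ⟨_, rfl⟩
    have he : SZT.B.ctr θL = j e := by
      rw [hθL, he0]
      change (j (θ 0) + j (θ 1)) / 2 = j ((θ 0 + θ 1) / 2)
      rw [map_div₀, map_add, map_ofNat]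
    obtain ⟨z, hz⟩ := IsAlgClosed.exists_pow_nat_eq ((e - θ 2) * (e - θ 3) * (e - θ 4)) (n := 2)
      (by norm_num)
    have hw : (SZT.B.hh θL).coeff 0 = j ((e - θ 2) * (e - θ 3) * (e - θ 4)) := by
      rw [Polynomial.coeff_zero_eq_eval_zero]
      unfold SZT.B.hh
      rw [eval_mul, eval_mul, eval_sub, eval_sub, eval_sub, eval_X, eval_C, eval_C, eval_C, he,
        map_mul, map_mul, map_sub, map_sub, map_sub, hθL]
      ring
    have hz2 : (j z) ^ 2 = (SZT.B.hh θL).coeff 0 := by rw [hw, ← hz, map_pow]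
    refine sqr L (SZT.B.hh θL) (j z) hN.two hPI hz2 ?_
    have h1 : ‖j z‖ ^ 2 = 1 := by rw [← norm_pow, hz2, hh0]
    exact (pow_eq_one_iff_of_nonneg (norm_nonneg _) (by norm_num)).mp h1
  have h20 : (2 : K) ≠ 0 := by
    intro h
    have h' := hNS'.1
    rw [h, map_zero] at h'
    exact zero_ne_one h'
  have hspl : ∀ p : K[X], (p.map φ).Splits := by
    intro p
    rw [← hmm]
    exact (IsAlgClosed.splits (p.map i)).map j
  obtain ⟨s₁, A₁, B₁, hM₁, hd₁, hs₁, hk, hp⟩ :=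
    kap K L φ f θL s h20 hsq h5 hN hs hspl I hI
  obtain ⟨e', he'⟩ := rat K L φ f θL e₀ hN (by rw [hφx]; exact he₀)
  let w : AbsoluteValue Ω ℝ :=
    { toFun := fun x => ‖j x‖
      map_mul' := fun x y => by rw [map_mul, norm_mul]
      nonneg' := fun x => norm_nonneg _
      eq_zero' := fun x => by rw [norm_eq_zero, map_eq_zero]
      add_le' := fun x y => by rw [map_add]; exact norm_add_le _ _ }
  have hwx : ∀ x, w x = ‖j x‖ := fun x => rfl
  have hwi : ∀ x, w (i x) = v x := fun x => hij x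
  have hwna : IsNonarchimedean w := by
    intro x y
    rw [hwx, hwx, hwx, map_add]
    exact IsUltrametricDist.norm_add_le_max _ _
  -- the roots in `Ω`
  have hfac : f.map i = ∏ k, (X - C (θ k)) := by
    apply Polynomial.map_injective j j.injective
    rw [hmm, hN.fac, Polynomial.map_prod, hθL]
    refine Finset.prod_congr rfl fun k _ => ?_
    rw [Polynomial.map_sub, Polynomial.map_X, Polynomial.map_C]
  have hroot : (f.map i).IsRoot (θ 0) := by
    rw [hfac, Polynomial.IsRoot.def, eval_prod]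
    refine Finset.prod_eq_zero (Finset.mem_univ 0) ?_
    rw [eval_sub, eval_X, eval_C, sub_self]
  have hθO : ∀ k, w (θ k) ≤ 1 := by
    intro k
    have h := hN.int k
    rw [hθL] at h
    exact h
  have hcO : ∀ k, w ((f.map i).coeff k) ≤ 1 := by
    intro k
    have h := hPIf k
    rw [coeff_map, hφx] at h
    rw [coeff_map]
    exact h
  have hdf : ∀ k : Fin 5, k ≠ 0 → k ≠ 1 → w (θ 0 - θ k) = 1 := by
    intro k h0 h1
    have h := hN.far 0 k (Ne.symm h0) (fun h => h1 h.2) (fun h => h0 h.2)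
    rw [hθL] at h
    rw [hwx, map_sub]
    exact h
  have h01 : (w (θ 0 - θ 1)) ^ 2 = v (discr f) := by
    rw [← hηd, hwx, map_sub]
    unfold SZT.B.eta
    rw [norm_pow, norm_div, hN.two, div_one, hθL]
  have hvd0 : 0 < v (discr f) := by rw [hdis]; exact pow_pos hc n
  have hvd1 : v (discr f) < 1 := by rw [hdis]; exact pow_lt_one₀ hc.le hc1 hn.ne'
  have h01' : w (θ 0 - θ 1) = Real.exp (Real.log (v (discr f)) / 2) := by
    refine (pow_left_inj₀ (w.nonneg _) (Real.exp_pos _).le two_ne_zero).1 ?_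
    rw [h01, ← Real.exp_nat_mul]
    push_cast
    rw [mul_div_cancel₀ _ (two_ne_zero), Real.exp_log hvd0]
  have hgen := comp_prod θ ((f.map i).comp (X + C (θ 0))) (by rw [hfac])
  have hdO : ∀ k, θ 0 - θ k ∈ Ow w hwna := fun k =>
    (Ow w hwna).sub_mem (hθO 0) (hθO k)
  obtain ⟨g0, g1, g2, g3, g4⟩ := coeffs_quintic _ _ _ _ _ hgen
  have hnd : NdC w ((f.map i).comp (X + C (θ 0))) (-Real.log (vv (discr f))) := by
    have d1 := hdO 1
    have d2 := hdO 2
    have d3 := hdO 3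
    have d4 := hdO 4
    refine ⟨hwna, ?_, g0, ?_, ?_, ?_, ?_⟩
    · rw [hvv]
      have := Real.log_neg hvd0 hvd1
      linarith
    · rw [g1, map_mul, map_mul, map_mul, hdf 2 (by decide) (by decide), hdf 3 (by decide)
        (by decide), hdf 4 (by decide) (by decide), mul_one, mul_one, mul_one, h01', neg_neg, hvv]
    · rw [g2, ← mem_Ow w hwna]
      exact (Ow w hwna).add_mem ((Ow w hwna).add_mem ((Ow w hwna).add_mem
        ((Ow w hwna).mul_mem ((Ow w hwna).mul_mem d1 d2) d3)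
        ((Ow w hwna).mul_mem ((Ow w hwna).mul_mem d1 d2) d4))
        ((Ow w hwna).mul_mem ((Ow w hwna).mul_mem d1 d3) d4))
        ((Ow w hwna).mul_mem ((Ow w hwna).mul_mem d2 d3) d4)
    · rw [g3, ← mem_Ow w hwna]
      exact (Ow w hwna).add_mem ((Ow w hwna).add_mem ((Ow w hwna).add_mem ((Ow w hwna).add_mem
        ((Ow w hwna).add_mem ((Ow w hwna).mul_mem d1 d2)
          ((Ow w hwna).mul_mem d1 d3)) ((Ow w hwna).mul_mem d1 d4))
        ((Ow w hwna).mul_mem d2 d3)) ((Ow w hwna).mul_mem d2 d4))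
        ((Ow w hwna).mul_mem d3 d4)
    · rw [g4, ← mem_Ow w hwna]
      exact (Ow w hwna).add_mem ((Ow w hwna).add_mem ((Ow w hwna).add_mem d1 d2) d3) d4
  refine ⟨s₁, Ω, inferInstance, w, i, θ 0, ?_, ?_, hroot, hnd, ?_⟩
  · rw [hs₁]
    exact nsz K L φ f A₁ B₁ θL s c n e' hc hc1 (fun x hx => by rw [hφv]; exact hV x hx) hN hs hηc
      he' hM₁ hd₁ (hspl A₁)
  · intro x
    rw [hwi, hvv]
  · intro k A B U W M hVG hcl hGen hkm
    obtain ⟨jj', hjj⟩ := hk k A B hVG.1.toMum hcl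
    obtain ⟨-, hG, hGn, hLv, hT⟩ := hGmp K Ω i f A B U W M hf
    have hN' : SZT.B.Node ((f.map i).map j) (fun k => j (θ k)) := by
      rw [hmm, ← hθL]
      exact hN
    have hs' : SZT.B.Sq (SZT.B.hh (fun k => j (θ k))) s := by
      rw [← hθL]
      exact hs
    have h2Ω : (2 : Ω) ≠ 0 := by
      have h1 : (2 : Ω) = i 2 := by rw [map_ofNat]
      rw [h1]
      exact (map_ne_zero i).mpr h20
    have hsqi : Squarefree (f.map i) := by
      have h1 : f.Separable := by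
        rw [Polynomial.separable_def]
        have h2 := Polynomial.resultant_eq_zero_iff (f := f) (g := derivative f)
        by_contra hcon
        apply hdn
        have h3 : resultant f (derivative f) = 0 := h2.mpr ⟨Or.inl hf.ne_zero, hcon⟩
        have h4 := Pool.Agent.SZT.H39.discr_map (RingHom.id K) hf h5
        rw [Polynomial.map_id, h3] at h4
        exact h4.symm
      exact (h1.map (f := i)).squarefree
    have key := hLfb Ω L j w (f.map i) θ s hwx hN' hs' h2Ω (hf.map i)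
      (by rw [hf.natDegree_map, h5]) hsqi (A.map i) (B.map i) (U.map i) (W.map i) M (hG hVG.1)
      (hT hVG) (hGn hGen)
    have hkum : (fun l => i (kum f A B l)) = kum (f.map i) (A.map i) (B.map i) :=
      funext fun l => Pool.Agent.KDT.H7.kum_map i f A B l
    rw [hkum]
    have hLvv : Lv w (f.map i) (A.map i) (U.map i) M = Lv vv f A U M := by
      rw [hLv v w hwi]
      unfold Lv
      rw [hvv, hvv]
    rw [← hθL, hmm, hmm, hjj, hLvv] at key
    obtain ⟨m, hm⟩ := hkm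
    obtain ⟨R, hR⟩ : ∃ R : ℝ, R = Real.exp (Lv vv f A U M) := ⟨_, rfl⟩
    obtain ⟨κ, hκ⟩ : ∃ κ : Fin 4 → Ω, κ = kum (f.map i) (A.map i) (B.map i) := ⟨_, rfl⟩
    obtain ⟨F, hF⟩ : ∃ F : Polynomial Ω, F = f.map i := ⟨_, rfl⟩
    rw [← hκ, ← hF, ← hR]
    rw [← hκ, ← hF] at key
    rw [← hF] at hcO
    have key' : ∀ l : Fin 4, w (uni (adc F (θ 0) (θ 2)) κ l) ≤ R := by
      intro l
      have h1 := key l
      rw [add_right_comm (k * s₁ : ℝ) (jj' : ℝ) (1 / 2), Pool.Agent.KDT.H7.FF_add_int,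
        Pool.Agent.KDT.H7.FF_add_int, hm] at h1
      have hF0 : FF (m : ℝ) = 0 := by
        unfold FF
        rw [Int.fract_intCast, zero_mul]
      have hF1 : FF ((m : ℝ) + 1 / 2) = 1 / 4 := by
        unfold FF
        rw [Int.fract_intCast_add]
        have h2 : Int.fract (1 / 2 : ℝ) = 1 / 2 := Int.fract_eq_self.2 ⟨by norm_num, by norm_num⟩
        rw [h2]
        norm_num
      rw [hF0, hF1, neg_zero, sub_self, ite_self, mul_zero, add_zero] at h1
      rw [hR]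
      exact h1
    have hR0 : 0 ≤ R := by rw [hR]; exact (Real.exp_pos _).le
    have hmulO : ∀ x y : Ω, w x ≤ 1 → w y ≤ R → w (x * y) ≤ R := by
      intro x y hx hy
      rw [map_mul]
      calc w x * w y ≤ 1 * R := mul_le_mul hx hy (w.nonneg _) zero_le_one
        _ = R := one_mul R
    have haddO : ∀ x y : Ω, w x ≤ R → w y ≤ R → w (x + y) ≤ R := fun x y hx hy =>
      (hwna x y).trans (max_le hx hy)
    have hE0 : uni (shc F (θ 0)) κ 0 = uni (adc F (θ 0) (θ 2)) κ 0 := by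
      simp [uni]
    have hE1 : uni (shc F (θ 0)) κ 1 = uni (adc F (θ 0) (θ 2)) κ 1 +
        (θ 2 - θ 0) * uni (adc F (θ 0) (θ 2)) κ 0 := by
      simp [uni, shc, adc]
      ring
    have hE2 : uni (shc F (θ 0)) κ 2 = uni (adc F (θ 0) (θ 2)) κ 2 := by
      simp [uni, shc, adc]
    have hE3 : uni (shc F (θ 0)) κ 3 = uni (adc F (θ 0) (θ 2)) κ 3 +
        (θ 2 - θ 0) * uni (adc F (θ 0) (θ 2)) κ 2 +
        (-((θ 2 - θ 0) * θ 0 ^ 2 + ((θ 0 + θ 0 + θ 0 + θ 0) * θ 0 ^ 2 +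
          (F.coeff 4 + F.coeff 4) * θ 0 ^ 2 + F.coeff 3 * θ 0) +
          ((θ 0 + θ 2) * (θ 0 ^ 2 + θ 0 * θ 2 + θ 2 ^ 2) + F.coeff 4 * (θ 0 + θ 2) ^ 2 +
            F.coeff 3 * (θ 0 + θ 2) + F.coeff 2))) * uni (adc F (θ 0) (θ 2)) κ 0 := by
      simp [uni, shc, adc, GG]
      ring
    have hb : w (θ 2 - θ 0) ≤ 1 := (Ow w hwna).sub_mem (hθO 2) (hθO 0)
    have hcoef : w (-((θ 2 - θ 0) * θ 0 ^ 2 + ((θ 0 + θ 0 + θ 0 + θ 0) * θ 0 ^ 2 +
          (F.coeff 4 + F.coeff 4) * θ 0 ^ 2 + F.coeff 3 * θ 0) +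
          ((θ 0 + θ 2) * (θ 0 ^ 2 + θ 0 * θ 2 + θ 2 ^ 2) + F.coeff 4 * (θ 0 + θ 2) ^ 2 +
            F.coeff 3 * (θ 0 + θ 2) + F.coeff 2))) ≤ 1 := by
      have a0 : θ 0 ∈ Ow w hwna := hθO 0
      have a2 : θ 2 ∈ Ow w hwna := hθO 2
      have c2 : F.coeff 2 ∈ Ow w hwna := hcO 2
      have c3 : F.coeff 3 ∈ Ow w hwna := hcO 3
      have c4 : F.coeff 4 ∈ Ow w hwna := hcO 4
      rw [← mem_Ow w hwna]
      have a00 := (Ow w hwna).pow_mem a0 2
      have a22 := (Ow w hwna).pow_mem a2 2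
      have a02 := (Ow w hwna).add_mem a0 a2
      have aa := (Ow w hwna).add_mem ((Ow w hwna).add_mem ((Ow w hwna).add_mem a0 a0) a0) a0
      have cc := (Ow w hwna).add_mem c4 c4
      refine (Ow w hwna).neg_mem ((Ow w hwna).add_mem ((Ow w hwna).add_mem
        ((Ow w hwna).mul_mem ((Ow w hwna).sub_mem a2 a0) a00)
        ((Ow w hwna).add_mem ((Ow w hwna).add_mem ((Ow w hwna).mul_mem aa a00)
          ((Ow w hwna).mul_mem cc a00)) ((Ow w hwna).mul_mem c3 a0)))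
        ((Ow w hwna).add_mem ((Ow w hwna).add_mem ((Ow w hwna).add_mem
          ((Ow w hwna).mul_mem a02 ((Ow w hwna).add_mem ((Ow w hwna).add_mem a00
            ((Ow w hwna).mul_mem a0 a2)) a22))
          ((Ow w hwna).mul_mem c4 ((Ow w hwna).pow_mem a02 2)))
          ((Ow w hwna).mul_mem c3 a02)) c2))
    intro l
    fin_cases l
    · change w (uni (shc F (θ 0)) κ 0) ≤ R
      rw [hE0]
      exact key' 0
    · change w (uni (shc F (θ 0)) κ 1) ≤ R
      rw [hE1]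
      exact haddO _ _ (key' 1) (hmulO _ _ hb (key' 0))
    · change w (uni (shc F (θ 0)) κ 2) ≤ R
      rw [hE2]
      exact key' 2
    · change w (uni (shc F (θ 0)) κ 3) ≤ R
      rw [hE3]
      exact haddO _ _ (haddO _ _ (key' 3) (hmulO _ _ hb (key' 2))) (hmulO _ _ hcoef (key' 0))

end Pool.Agent.KDS.H94
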